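import Pool.Agent.Y150.KN.Stm3

/-!
# Permutations of the factors of a power (project KN, job KN-G3)
-/

set_option autoImplicit false

open CategoryTheory AlgebraicGeometry

namespace Pool.Agent.Y110.KN

universe u v w

open Pool.Agent.H914 VarClass Obj Pool.Agent.Y150.KN

variable {k : Type u} [Field k] {𝒱 : VarClass k} {ops : CycleOps 𝒱} (W : Coh.{u, v} ops)

/-- Two multilinear forms on the cohomology which agree on homogeneous elements are equal. -/
lemma multilinear_ext_gr {X : 𝒱.Obj} {m : ℕ} {N : Type*} [AddCommGroup N] [Module W.K N]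
    {f g : MultilinearMap W.K (fun _ : Fin m => W.H X) N}
    (h : ∀ (d : Fin m → ℕ) (a : Fin m → W.H X), (∀ i, a i ∈ W.gr X (d i)) → f a = g a) :
    f = g := by
  let b := (W.isInternal X).collectedBasis
    (fun i => Module.Basis.ofVectorSpace W.K (W.gr X i))
  refine Module.Basis.ext_multilinear (fun _ => b) ?_
  intro v
  refine h (fun i => (v i).1) _ ?_
  intro i
  exact (W.isInternal X).collectedBasis_mem _ _

lemma map_mem_par {X Y : 𝒱.Obj} (f : X ⟶ Y) {ε : ℕ} {a : W.H Y} (ha : a ∈ par W Y ε) :
    W.map f a ∈ par W X ε := by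
  refine Submodule.iSup_induction (fun i => W.gr Y (2 * i + ε))
    (motive := fun a => W.map f a ∈ par W X ε) ha ?_ ?_ ?_
  · intro i x hx
    exact Submodule.mem_iSup_of_mem i (W.map_mem f hx)
  · rw [_root_.map_zero]
    exact Submodule.zero_mem _
  · intro x y hx hy
    rw [_root_.map_add]
    exact Submodule.add_mem _ hx hy

lemma par_comm {X : 𝒱.Obj} {ε δ : ℕ} {a b : W.H X} (ha : a ∈ par W X ε) (hb : b ∈ par W X δ) :
    a * b = ((-1 : ℤ) ^ (ε * δ)) • (b * a) := by
  refine Submodule.iSup_induction (fun i => W.gr X (2 * i + ε))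
    (motive := fun a => a * b = ((-1 : ℤ) ^ (ε * δ)) • (b * a)) ha ?_ ?_ ?_
  · intro i x hx
    refine Submodule.iSup_induction (fun i => W.gr X (2 * i + δ))
      (motive := fun b => x * b = ((-1 : ℤ) ^ (ε * δ)) • (b * x)) hb ?_ ?_ ?_
    · intro l y hy
      rw [W.comm hx hy]
      have h1 : (2 * i + ε) * (2 * l + δ) = 2 * (2 * i * l + i * δ + ε * l) + ε * δ := by ring
      rw [h1, pow_add, pow_mul]
      simp only [even_two, Even.neg_pow, one_pow, one_mul]
      rcases Nat.even_or_odd (ε * δ) with h | h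
      · rw [h.neg_one_pow, h.neg_one_pow, one_smul, one_smul]
      · rw [h.neg_one_pow, h.neg_one_pow, neg_smul, neg_smul, one_smul, one_smul]
    · simp
    · intro y z hy hz
      rw [mul_add, add_mul, smul_add, hy, hz]
  · simp
  · intro x y hx hy
    rw [mul_add, add_mul, smul_add, hx, hy]

/-- The sign rule for a reordering of the factors. -/
lemma sgn_perm (hsgn : S_sgn.{v, 0}) {m : ℕ} (σ : Equiv.Perm (Fin m)) (ε : Fin m → ℕ) :
    ∃ s : ℤ, (s = 1 ∨ s = -1) ∧ ∀ (A : Type v) [Ring A] (y : Fin m → A),
      (∀ a b, a ≠ b → y a * y b = ((-1 : ℤ) ^ (ε a * ε b)) • (y b * y a)) →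
      (List.ofFn y).prod = s • (List.ofFn fun i => y (σ i)).prod := by
  have hp : (List.ofFn (fun i : Fin m => i)).Perm (List.ofFn (fun i => σ i)) :=
    (Equiv.Perm.ofFn_comp_perm σ (fun i : Fin m => i)).symm
  obtain ⟨s, hs, h⟩ := hsgn hp ε
  refine ⟨s, hs, fun A _ y hy => ?_⟩
  have := h A y hy
  rw [List.map_ofFn, List.map_ofFn] at this
  exact this

section Pow

variable {W} {X P : 𝒱.Obj} {m : ℕ} {pr : Fin m → (P ⟶ X)}

lemma map_ofFn_prod (F : P ⟶ P) (a : Fin m → W.H X) :
    W.map F (List.ofFn fun i => W.map (pr i) (a i)).prod =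
      (List.ofFn fun i => W.map (F ≫ pr i) (a i)).prod := by
  rw [map_list_prod, List.map_ofFn]
  congr 2
  funext i
  simp only [Function.comp, W.map_comp]

lemma map_map_eq (hP : IsPw W X P pr) (ρ : Equiv.Perm (Fin m)) (F F' : P ⟶ P)
    (hF : ∀ i, F ≫ pr i = pr (ρ i)) (hF' : ∀ i, F' ≫ pr i = pr (ρ.symm i)) (a : W.H P) :
    W.map F (W.map F' a) = a := by
  have ha : a ∈ Submodule.span W.K
      {x | ∃ a : Fin m → W.H X, x = (List.ofFn fun i => W.map (pr i) (a i)).prod} := by
    rw [hP.span]; trivial
  induction ha using Submodule.span_induction with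
  | mem x hx =>
    obtain ⟨a, rfl⟩ := hx
    rw [map_ofFn_prod, map_list_prod, List.map_ofFn]
    congr 2
    funext i
    simp only [Function.comp, hF', ← W.map_comp, hF, Equiv.apply_symm_apply]
  | zero => simp
  | add x y _ _ hx hy => rw [_root_.map_add, _root_.map_add, hx, hy]
  | smul c x _ hx => rw [map_smul, map_smul, hx]

/-- The trace is invariant under permutations of the factors. -/
lemma tr_map_perm (hsgn : S_sgn.{v, 0}) (hP : IsPw W X P pr) (ρ : Equiv.Perm (Fin m))
    (F : P ⟶ P) (hF : ∀ i, F ≫ pr i = pr (ρ i)) (a : W.H P) :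
    W.tr P (W.map F a) = W.tr P a := by
  -- the two multilinear forms
  let f₁ : MultilinearMap W.K (fun _ : Fin m => W.H X) W.K :=
    (W.tr P).compMultilinearMap ((MultilinearMap.mkPiAlgebraFin W.K m (W.H P)).compLinearMap
      fun i => (W.map (pr i)).toLinearMap)
  let f₂ : MultilinearMap W.K (fun _ : Fin m => W.H X) W.K :=
    (W.tr P ∘ₗ (W.map F).toLinearMap).compMultilinearMap
      ((MultilinearMap.mkPiAlgebraFin W.K m (W.H P)).compLinearMap
        fun i => (W.map (pr i)).toLinearMap)
  have h₁ : ∀ a, f₁ a = W.tr P (List.ofFn fun i => W.map (pr i) (a i)).prod := fun a => rfl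
  have h₂ : ∀ a, f₂ a = W.tr P (W.map F (List.ofFn fun i => W.map (pr i) (a i)).prod) :=
    fun a => rfl
  have key : f₂ = f₁ := by
    refine multilinear_ext_gr W ?_
    intro d a hd
    rw [h₁, h₂, map_ofFn_prod]
    simp only [hF]
    obtain ⟨s, hs, h⟩ := sgn_perm hsgn ρ.symm d
    have hc : ∀ i l : Fin m, i ≠ l → W.map (pr (ρ i)) (a i) * W.map (pr (ρ l)) (a l) =
        ((-1 : ℤ) ^ (d i * d l)) • (W.map (pr (ρ l)) (a l) * W.map (pr (ρ i)) (a i)) := by
      intro i l _
      have h1 : ∀ i, a i ∈ par W X (d i) := fun i =>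
        Submodule.mem_iSup_of_mem 0 (by rw [mul_zero, zero_add]; exact hd i)
      exact par_comm W (map_mem_par W _ (h1 i)) (map_mem_par W _ (h1 l))
    have h3 := h (W.H P) (fun i => W.map (pr (ρ i)) (a i)) hc
    simp only [Equiv.apply_symm_apply] at h3
    rw [h3, map_zsmul, hP.tr_prod, hP.tr_prod, Equiv.prod_comp ρ.symm (fun i => W.tr X (a i))]
    by_cases htop : ∀ i, d i = 2 * X.dim
    · -- all degrees are even, hence no sign
      have h4 : (List.ofFn fun i => W.map (pr (ρ i)) (a i)).prod =
          (List.ofFn fun i => W.map (pr i) (a (ρ.symm i))).prod := by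
        have hp : (List.ofFn fun i => W.map (pr (ρ i)) (a i)).Perm
            (List.ofFn fun i => W.map (pr i) (a (ρ.symm i))) := by
          have := (Equiv.Perm.ofFn_comp_perm ρ.symm (fun i => W.map (pr (ρ i)) (a i))).symm
          have h5 : ((fun i => W.map (pr (ρ i)) (a i)) ∘ ρ.symm) =
              (fun i => W.map (pr i) (a (ρ.symm i))) := by
            funext i
            simp only [Function.comp, Equiv.apply_symm_apply]
          rwa [h5] at this
        refine hp.prod_eq' ?_
        rw [List.pairwise_ofFn]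
        intro i l _
        have hi : W.map (pr (ρ i)) (a i) ∈ W.gr P (2 * X.dim) := by
          rw [← htop i]; exact W.map_mem _ (hd i)
        exact W.even_comm hi _
      have h5 : W.tr P ((List.ofFn fun i => W.map (pr (ρ i)) (a i)).prod) =
          ∏ i, W.tr X (a i) := by
        rw [h4, hP.tr_prod, Equiv.prod_comp ρ.symm (fun i => W.tr X (a i))]
      rw [h3, map_zsmul, hP.tr_prod, Equiv.prod_comp ρ.symm (fun i => W.tr X (a i))] at h5
      exact h5
    · push Not at htop
      obtain ⟨i, hi⟩ := htop
      have h0 : ∏ i, W.tr X (a i) = 0 :=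
        Finset.prod_eq_zero (Finset.mem_univ i) (W.tr_eq_zero (hd i) hi)
      rw [h0, smul_zero]
  have ha : a ∈ Submodule.span W.K
      {x | ∃ a : Fin m → W.H X, x = (List.ofFn fun i => W.map (pr i) (a i)).prod} := by
    rw [hP.span]; trivial
  induction ha using Submodule.span_induction with
  | mem x hx =>
    obtain ⟨a, rfl⟩ := hx
    rw [← h₁, ← h₂, key]
  | zero => simp
  | add x y _ _ hx hy => rw [_root_.map_add, _root_.map_add, _root_.map_add, hx, hy]
  | smul c x _ hx => rw [map_smul, map_smul, map_smul, hx]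

end Pow

/-- Permutations of the factors of a power. -/
theorem swap (hsgn : S_sgn.{v, 0}) : S_swap.{u, v} := by
  intro k _ 𝒱 ops W X P m pr hP V _ _ j ev od hsum hev hod σ z hz
  obtain ⟨F, hF⟩ := hP.exists_map P (fun i => pr (σ.symm i))
  obtain ⟨F', hF'⟩ := hP.exists_map P (fun i => pr (σ i))
  -- the operators
  let T : Finset (Fin m) → Fin m → Module.End W.K V := fun s i => if i ∈ s then ev else od
  have hT : ∀ s i, T s i = ev ∨ T s i = od := by
    intro s i
    by_cases h : i ∈ s
    · left; simp [T, h]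
    · right; simp [T, h]
  have hexp : (frm W pr j z).domDomCongr σ =
      ∑ s : Finset (Fin m), ((frm W pr j z).domDomCongr σ).compLinearMap (T s) := by
    ext x
    rw [MultilinearMap.sum_apply]
    have hx : x = (fun i => ev (x i)) + (fun i => od (x i)) := by
      funext i
      have := congrArg (fun f : Module.End W.K V => f (x i)) hsum
      simpa using this.symm
    conv_lhs => rw [hx]
    rw [MultilinearMap.map_add_univ]
    refine Finset.sum_congr rfl fun s _ => ?_
    rw [MultilinearMap.compLinearMap_apply]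
    congr 1
    funext i
    by_cases h : i ∈ s
    · simp [T, h]
    · simp [T, h]
  rw [hexp]
  refine Submodule.sum_mem _ fun s _ => ?_
  -- the sign
  obtain ⟨t, ht, hsg⟩ := sgn_perm hsgn σ.symm (fun i => if σ i ∈ s then 0 else 1)
  have hterm : ((frm W pr j z).domDomCongr σ).compLinearMap (T s) =
      (t : W.K) • (frm W pr j (W.map F' z)).compLinearMap (T s) := by
    ext x
    rw [MultilinearMap.smul_apply, MultilinearMap.compLinearMap_apply,
      MultilinearMap.compLinearMap_apply, MultilinearMap.domDomCongr_apply, frm_apply, frm_apply]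
    set c : Fin m → W.H X := fun i => j (T s i (x i)) with hc
    have hcp : ∀ i, c i ∈ par W X (if i ∈ s then 0 else 1) := by
      intro i
      by_cases h : i ∈ s
      · simp only [hc, T, h, if_true]
        exact hev _
      · simp only [hc, T, h, if_false]
        exact hod _
    have h1 := hsg (W.H P) (fun i => W.map (pr i) (c (σ i))) (by
      intro a b _
      exact par_comm W (map_mem_par W _ (hcp (σ a))) (map_mem_par W _ (hcp (σ b))))
    simp only [Equiv.apply_symm_apply] at h1
    have h2 : (List.ofFn fun i => W.map (pr (σ.symm i)) (c i)).prod =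
        W.map F (List.ofFn fun i => W.map (pr i) (c i)).prod := by
      rw [map_ofFn_prod]
      simp only [hF]
    have h3 : W.tr P (z * (List.ofFn fun i => W.map (pr i) (c (σ i))).prod) =
        (t : W.K) • W.tr P (W.map F' z * (List.ofFn fun i => W.map (pr i) (c i)).prod) := by
      rw [h1, h2, mul_smul_comm, map_zsmul, ← Int.cast_smul_eq_zsmul W.K]
      congr 1
      conv_lhs => rw [← map_map_eq hP σ.symm F F' hF (by simpa using hF') z]
      rw [← _root_.map_mul, tr_map_perm hsgn hP σ.symm F hF]
    exact h3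
  rw [hterm]
  refine Submodule.smul_mem _ _ (Submodule.subset_span ?_)
  exact ⟨W.map F' z, W.map_mem_num F' hz, T s, hT s, rfl⟩

end Pool.Agent.Y110.KN
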